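import Mathlib

set_option autoImplicit false

/-!
# Ehrenfeucht-Fraisse systems for Mathlib's bounded formulas
-/

namespace Pool.Agent.Q203.DP

open FirstOrder FirstOrder.Language FirstOrder.Language.Structure

variable {L : Language}

/-- Quantifier rank. -/
def qr {α : Type} : ∀ {n : ℕ}, L.BoundedFormula α n → ℕ
  | _, .falsum => 0
  | _, .equal _ _ => 0
  | _, .rel _ _ => 0
  | _, .imp f g => max (qr f) (qr g)
  | _, .all f => qr f + 1

theorem ef [L.IsRelational] {M N : Type} [L.Structure M] [L.Structure N]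
    (B : ℕ → Set (M × N) → Prop)
    (hmono : ∀ m p, B (m + 1) p → B m p)
    (heq : ∀ m p, B m p → ∀ a b a' b', (a, b) ∈ p → (a', b') ∈ p → (a = a' ↔ b = b'))
    (hrel : ∀ m p, B m p → ∀ (n : ℕ) (R : L.Relations n) (f : Fin n → M) (g : Fin n → N),
      (∀ i, (f i, g i) ∈ p) → (RelMap R f ↔ RelMap R g))
    (hforth : ∀ m p, B (m + 1) p → ∀ a, ∃ b, B m (insert (a, b) p))
    (hback : ∀ m p, B (m + 1) p → ∀ b, ∃ a, B m (insert (a, b) p))
    {α : Type} {n : ℕ} (φ : L.BoundedFormula α n) :
    ∀ m, qr φ ≤ m → ∀ p, B m p → ∀ (v : α → M) (xs : Fin n → M) (v' : α → N) (xs' : Fin n → N),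
      (∀ i, (v i, v' i) ∈ p) → (∀ i, (xs i, xs' i) ∈ p) →
      (φ.Realize v xs ↔ φ.Realize v' xs') := by
  have hmono' : ∀ m m' p, m ≤ m' → B m' p → B m p := by
    intro m m' p h
    induction m', h using Nat.le_induction with
    | base => exact id
    | succ m' _ ih => exact fun h => ih (hmono _ _ h)
  have hterm : ∀ {l : ℕ} (t : L.Term (α ⊕ Fin l)) (p : Set (M × N)) (v : α → M) (xs : Fin l → M)
      (v' : α → N) (xs' : Fin l → N), (∀ i, (v i, v' i) ∈ p) → (∀ i, (xs i, xs' i) ∈ p) →
      (t.realize (Sum.elim v xs), t.realize (Sum.elim v' xs')) ∈ p := by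
    intro l t p v xs v' xs' hv hxs
    cases t with
    | var i =>
      rcases i with i | i
      · exact hv i
      · exact hxs i
    | func f _ => exact isEmptyElim f
  induction φ with
  | falsum => exact fun _ _ _ _ _ _ _ _ _ _ => Iff.rfl
  | equal t₁ t₂ =>
    intro m _ p hp v xs v' xs' hv hxs
    exact heq m p hp _ _ _ _ (hterm t₁ p v xs v' xs' hv hxs) (hterm t₂ p v xs v' xs' hv hxs)
  | rel R ts =>
    intro m _ p hp v xs v' xs' hv hxs
    exact hrel m p hp _ R _ _ fun i => hterm (ts i) p v xs v' xs' hv hxs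
  | imp f g ihf ihg =>
    intro m hm p hp v xs v' xs' hv hxs
    simp only [qr, max_le_iff] at hm
    exact imp_congr (ihf m hm.1 p hp v xs v' xs' hv hxs) (ihg m hm.2 p hp v xs v' xs' hv hxs)
  | all f ih =>
    intro m hm p hp v xs v' xs' hv hxs
    simp only [qr] at hm
    have hp' : B (qr f + 1) p := hmono' _ _ _ hm hp
    have key : ∀ a b, B (qr f) (insert (a, b) p) →
        (f.Realize v (Fin.snoc xs a) ↔ f.Realize v' (Fin.snoc xs' b)) := by
      intro a b hab
      refine ih (qr f) le_rfl _ hab v _ v' _ (fun i => Or.inr (hv i)) fun i => ?_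
      refine Fin.lastCases ?_ (fun i => ?_) i
      · simp
      · simpa using Or.inr (hxs i)
    constructor
    · intro h b
      obtain ⟨a, ha⟩ := hback _ _ hp' b
      exact (key a b ha).1 (h a)
    · intro h a
      obtain ⟨b, hb⟩ := hforth _ _ hp' a
      exact (key a b hb).2 (h b)

end Pool.Agent.Q203.DP
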