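import Pool.Agent.Q203.DP.Pos

set_option autoImplicit false

/-!
# No first-order sentence defines the finite down-posets
-/

namespace Pool.Agent.Q203.DP

open FirstOrder FirstOrder.Language

theorem isDownFun_bot (t : Bool) (N : ℕ) : IsDownFun (fun _ : P t N => (⟨.bot, trivial⟩ : P t N)) := by
  refine ⟨fun c => trivial, fun c d _ => le_rfl, fun c d h => ?_⟩
  obtain ⟨c, hc⟩ := c
  apply Subtype.ext
  rw [le_def] at h
  cases c <;> simp_all [Le]

/-- an element of `P t N` -/
def mk (t : Bool) (N : ℕ) (x : V) (h : Valid N x) : P t N := ⟨x, h⟩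

theorem isDownFun_atom (t : Bool) (N : ℕ) (b : Bool) (i : ℕ) (hi : Valid N (.atm b i)) :
    ∃ f : P t N → P t N, IsDownFun f ∧ ∀ x : P t N, mk t N (.atm b i) hi ≤ x →
      f x = mk t N (.atm b i) hi := by
  classical
  set a := mk t N (.atm b i) hi with ha
  set z := mk t N .bot trivial with hz
  have hz0 : ∀ x, z ≤ x := fun _ => trivial
  refine ⟨fun x : P t N => if a ≤ x then a else z,
    ⟨fun c => ?_, fun c d h => ?_, fun c d h => ?_⟩, fun x hx => if_pos hx⟩
  · by_cases h : a ≤ c
    · simp only [h, if_true]
    · simp only [h, if_false]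
      exact hz0 _
  · by_cases h1 : a ≤ c
    · simp only [h1, h1.trans h, if_true, le_refl]
    · simp only [h1, if_false]
      exact hz0 _
  · have h2 : c ≤ a := by
      by_cases h1 : a ≤ d
      · simpa only [h1, if_true] using h
      · simp only [h1, if_false] at h
        exact h.trans (hz0 _)
    obtain ⟨c, hc⟩ := c
    rw [le_def] at h2
    simp only [ha, mk] at h2
    cases c with
    | bot =>
      have h3 : ¬ a ≤ (⟨.bot, hc⟩ : P t N) := by
        intro h
        rw [le_def] at h
        simp [ha, mk, Le] at h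
      simp only [h3, if_false]
      rfl
    | top => simp [Le] at h2
    | atm b' i' =>
      simp only [Le] at h2
      obtain ⟨rfl, rfl⟩ := h2
      have h3 : a ≤ (⟨.atm b' i', hc⟩ : P t N) := le_refl a
      simp only [h3, if_true]
      rfl
    | up b' i' => simp [Le] at h2

/-- the retraction onto the first track -/
def retr : V → V
  | .bot => .bot
  | .top => .up false 0
  | .atm false i => .atm false i
  | .atm true _ => .bot
  | .up false i => .up false i
  | .up true _ => .bot

theorem retr_valid (N : ℕ) (x : V) (hx : Valid N x) : Valid N (retr x) := by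
  cases x with
  | bot => trivial
  | top => simp [retr, Valid]
  | atm b i => cases b <;> simp_all [retr, Valid]
  | up b i => cases b <;> simp_all [retr, Valid]

theorem isDownFun_retr (N : ℕ) :
    IsDownFun (fun x : P true N => (⟨retr x.1, retr_valid N x.1 x.2⟩ : P true N)) := by
  refine ⟨?_, ?_, ?_⟩
  · rintro ⟨x, hx⟩
    rw [le_def]
    cases x with
    | bot => trivial
    | top => simp [retr, Le]
    | atm b i => cases b <;> simp [retr, Le]
    | up b i => cases b <;> simp [retr, Le]
  · rintro ⟨x, hx⟩ ⟨y, hy⟩ h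
    rw [le_def] at h ⊢
    simp only at h ⊢
    cases x with
    | bot => simp [retr, Le]
    | top =>
      cases y <;> simp_all [retr, Le]
    | atm b i =>
      cases b with
      | true => simp [retr, Le]
      | false =>
        cases y with
        | bot => simp [Le] at h
        | top => simpa [retr, Le] using h
        | atm b' i' =>
          simp only [Le] at h
          obtain ⟨rfl, rfl⟩ := h
          simp [retr, Le]
        | up b' j =>
          simp only [Le] at h
          obtain ⟨rfl, h1, h2⟩ := h
          simp [retr, Le, h1, h2]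
    | up b i =>
      cases b with
      | true => simp [retr, Le]
      | false =>
        cases y with
        | bot => simp [Le] at h
        | top => simpa [retr, Le] using h
        | atm b' i' => simp [Le] at h
        | up b' j =>
          simp only [Le] at h
          obtain ⟨rfl, rfl⟩ := h
          simp [retr, Le]
  · rintro ⟨x, hx⟩ ⟨y, hy⟩ h
    rw [le_def] at h
    apply Subtype.ext
    simp only at h ⊢
    cases x with
    | bot => rfl
    | top =>
      exfalso
      cases y with
      | bot => simp [retr, Le] at h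
      | top => simp [retr, Le] at h
      | atm b i => cases b <;> simp [retr, Le] at h
      | up b i => cases b <;> simp [retr, Le] at h
    | atm b i =>
      cases b with
      | false => rfl
      | true =>
        exfalso
        cases y with
        | bot => simp [retr, Le] at h
        | top => simp [retr, Le] at h
        | atm b i => cases b <;> simp [retr, Le] at h
        | up b i => cases b <;> simp [retr, Le] at h
    | up b i =>
      cases b with
      | false => rfl
      | true =>
        exfalso
        cases y with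
        | bot => simp [retr, Le] at h
        | top => simp [retr, Le] at h
        | atm b i => cases b <;> simp [retr, Le] at h
        | up b i => cases b <;> simp [retr, Le] at h

/-- The good posets. -/
theorem good (N : ℕ) : IsDownPoset (P true N) := by
  rw [isDownPoset_iff]
  rintro ⟨c, hc⟩ ⟨d, hd⟩ h
  cases c with
  | bot => exact ⟨_, isDownFun_bot true N, rfl⟩
  | atm b i =>
    obtain ⟨f, hf, hf2⟩ := isDownFun_atom true N b i hc
    exact ⟨f, hf, hf2 _ h⟩
  | top =>
    refine ⟨id, ⟨fun c => le_rfl, fun _ _ h => h, fun _ _ _ => rfl⟩, ?_⟩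
    apply Subtype.ext
    rw [le_def] at h
    cases d <;> simp_all [Le]
  | up b j =>
    rw [le_def] at h
    cases d with
    | bot => simp [Le] at h
    | atm b' i' => simp [Le] at h
    | up b' j' =>
      simp only [Le] at h
      obtain ⟨rfl, rfl⟩ := h
      exact ⟨id, ⟨fun c => le_rfl, fun _ _ h => h, fun _ _ _ => rfl⟩, rfl⟩
    | top =>
      simp only [Le] at h
      obtain ⟨rfl, rfl⟩ := h
      exact ⟨_, isDownFun_retr N, rfl⟩

/-- Exchange the tracks beyond `c`. -/
def sw (c : ℕ) : V → V
  | .bot => .bot
  | .top => .top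
  | .atm b i => if i ≤ c then .atm b i else .atm (!b) i
  | .up b i => if i ≤ c then .up b i else .up (!b) i

theorem sw_sw (c : ℕ) (x : V) : sw c (sw c x) = x := by
  cases x with
  | bot => rfl
  | top => rfl
  | atm b i => by_cases h : i ≤ c <;> simp [sw, h]
  | up b i => by_cases h : i ≤ c <;> simp [sw, h]

theorem sw_valid (c N : ℕ) (x : V) (hx : Valid N x) : Valid N (sw c x) := by
  cases x with
  | bot => trivial
  | top => trivial
  | atm b i => by_cases h : i ≤ c <;> simpa [sw, h, Valid] using hx
  | up b i => by_cases h : i ≤ c <;> simpa [sw, h, Valid] using hx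

/-- Being far from `c`. -/
def Far (D c : ℕ) : V → Prop
  | .bot => True
  | .top => True
  | .atm _ i => i + D ≤ c ∨ c + D ≤ i
  | .up _ i => i + D ≤ c ∨ c + D ≤ i

theorem far_sw (D c c' : ℕ) (x : V) : Far D c (sw c' x) ↔ Far D c x := by
  cases x with
  | bot => rfl
  | top => rfl
  | atm b i => by_cases h : i ≤ c' <;> simp [sw, h, Far]
  | up b i => by_cases h : i ≤ c' <;> simp [sw, h, Far]

theorem sw_le (D c N : ℕ) (hD : 3 ≤ D) (h1 : D ≤ c) (h2 : c + D ≤ N) (x y : V) (hx : Far D c x)
    (hy : Far D c y) : Le true N x y ↔ Le false N (sw c x) (sw c y) := by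
  cases x with
  | bot => cases y <;> simp [sw, Le]
  | top =>
    cases y with
    | bot => simp [sw, Le]
    | top => simp [sw, Le]
    | atm b i => by_cases h : i ≤ c <;> simp [sw, h, Le]
    | up b i => by_cases h : i ≤ c <;> simp [sw, h, Le]
  | atm b i =>
    simp only [Far] at hx
    cases y with
    | bot => by_cases h : i ≤ c <;> simp [sw, h, Le]
    | top =>
      by_cases h : i ≤ c
      · simp only [sw, h, if_true, Le]
        have : i ≠ N + 2 := by omega
        simp [this]
      · simp only [sw, h, if_false, Le]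
        have : ¬ i ≤ 2 := by omega
        simp [this]
    | atm b' i' =>
      by_cases h : i ≤ c
      · by_cases h' : i' ≤ c
        · simp [sw, h, h', Le]
        · have : i ≠ i' := by omega
          simp [sw, h, h', Le, this]
      · by_cases h' : i' ≤ c
        · have : i ≠ i' := by omega
          simp [sw, h, h', Le, this]
        · simp [sw, h, h', Le]
    | up b' j =>
      simp only [Far] at hy
      by_cases h : i ≤ c
      · by_cases h' : j ≤ c
        · simp [sw, h, h', Le]
        · have : ¬ (j ≤ i ∧ i ≤ j + 2) := by omega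
          simp only [sw, h, h', Le, if_true, if_false]
          tauto
      · by_cases h' : j ≤ c
        · have : ¬ (j ≤ i ∧ i ≤ j + 2) := by omega
          simp only [sw, h, h', Le, if_true, if_false]
          tauto
        · simp [sw, h, h', Le]
  | up b i =>
    simp only [Far] at hx
    cases y with
    | bot => by_cases h : i ≤ c <;> simp [sw, h, Le]
    | top =>
      by_cases h : i ≤ c
      · simp [sw, h, Le]
      · have : i ≠ 0 := by omega
        simp [sw, h, Le, this]
    | atm b' i' =>
      by_cases h : i ≤ c <;> by_cases h' : i' ≤ c <;> simp [sw, h, h', Le]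
    | up b' j =>
      by_cases h : i ≤ c
      · by_cases h' : j ≤ c
        · simp [sw, h, h', Le]
        · have : i ≠ j := by omega
          simp [sw, h, h', Le, this]
      · by_cases h' : j ≤ c
        · have : i ≠ j := by omega
          simp [sw, h, h', Le, this]
        · simp [sw, h, h', Le]

theorem far_mono {D D' c : ℕ} (h : D ≤ D') (x : V) (hx : Far D' c x) : Far D c x := by
  cases x <;> simp only [Far] at hx ⊢ <;> omega

theorem far_move {D c : ℕ} (x : V) (hx : Far (3 * D) c x) : Far D (c + 2 * D) x := by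
  cases x <;> simp only [Far] at hx ⊢ <;> omega

theorem far_new {D c : ℕ} (x : V) (hx : ¬ Far D c x) : Far D (c + 2 * D) x := by
  cases x <;> simp only [Far] at hx ⊢ <;> first | trivial | omega

theorem sw_move {D c : ℕ} (hD : 1 ≤ D) (x : V) (hx : Far (3 * D) c x) :
    sw (c + 2 * D) x = sw c x := by
  cases x with
  | bot => rfl
  | top => rfl
  | atm b i =>
    simp only [Far] at hx
    have : i ≤ c + 2 * D ↔ i ≤ c := by omega
    simp [sw, this]
  | up b i =>
    simp only [Far] at hx
    have : i ≤ c + 2 * D ↔ i ≤ c := by omega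
    simp [sw, this]

/-- The back-and-forth system. -/
def B (N m : ℕ) (p : Set (P true N × P false N)) : Prop :=
  ∃ c, 3 ^ (m + 1) ≤ c ∧ c + 3 ^ (m + 1) ≤ N ∧
    ∀ q ∈ p, Far (3 ^ (m + 1)) c q.1.1 ∧ q.2.1 = sw c q.1.1

theorem B_ext {N m : ℕ} {p : Set (P true N × P false N)} (h : B N (m + 1) p) (x : V) :
    ∃ c, 3 ^ (m + 1) ≤ c ∧ c + 3 ^ (m + 1) ≤ N ∧ Far (3 ^ (m + 1)) c x ∧
      ∀ q ∈ p, Far (3 ^ (m + 1)) c q.1.1 ∧ q.2.1 = sw c q.1.1 := by
  obtain ⟨c, h1, h2, h3⟩ := h
  have e : 3 ^ (m + 1 + 1) = 3 * 3 ^ (m + 1) := by ring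
  rw [e] at h1 h2 h3
  have hpos : 1 ≤ 3 ^ (m + 1) := Nat.one_le_pow _ _ (by norm_num)
  by_cases hx : Far (3 ^ (m + 1)) c x
  · exact ⟨c, by omega, by omega, hx, fun q hq => ⟨far_mono (by omega) _ (h3 q hq).1,
      (h3 q hq).2⟩⟩
  · refine ⟨c + 2 * 3 ^ (m + 1), by omega, by omega, far_new x hx, fun q hq => ?_⟩
    obtain ⟨h4, h5⟩ := h3 q hq
    exact ⟨far_move _ h4, by rw [sw_move hpos _ h4]; exact h5⟩

/-- Satisfaction of a sentence of the language of orders in a poset. -/
def Sat (C : Type) [PartialOrder C] (φ : Language.order.Sentence) : Prop :=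
  @Sentence.Realize Language.order C (orderStructure C) φ

theorem equiv_of_large (φ : Language.order.Sentence) :
    Sat (P true (2 * 3 ^ (qr φ + 1))) φ ↔ Sat (P false (2 * 3 ^ (qr φ + 1))) φ := by
  generalize hN : 2 * 3 ^ (qr φ + 1) = N
  let _ : Language.order.Structure (P true N) := orderStructure (P true N)
  let _ : Language.order.Structure (P false N) := orderStructure (P false N)
  refine ef (B N) ?_ ?_ ?_ ?_ ?_ φ (qr φ) le_rfl ∅ ?_ _ _ _ _ (fun i => i.elim)
    (fun i => i.elim0)
  · intro m p h
    obtain ⟨c, h1, h2, _, h3⟩ := B_ext h .bot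
    exact ⟨c, h1, h2, h3⟩
  · rintro m p ⟨c, _, _, h3⟩ a b a' b' hab hab'
    have e1 := (h3 _ hab).2
    have e2 := (h3 _ hab').2
    simp only at e1 e2
    constructor
    · rintro rfl
      exact Subtype.ext (e1.trans e2.symm)
    · rintro rfl
      apply Subtype.ext
      rw [← sw_sw c a.1, ← sw_sw c a'.1, ← e1, ← e2]
  · rintro m p ⟨c, h1, h2, h3⟩ n R f g hfg
    cases R
    have hD : 3 ≤ 3 ^ (m + 1) := by
      calc 3 = 3 ^ 1 := by norm_num
        _ ≤ 3 ^ (m + 1) := Nat.pow_le_pow_right (by norm_num) (by omega)
    have e1 := h3 _ (hfg 0)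
    have e2 := h3 _ (hfg 1)
    simp only at e1 e2
    show Le true N (f 0).1 (f 1).1 ↔ Le false N (g 0).1 (g 1).1
    rw [e1.2, e2.2]
    exact sw_le _ _ _ hD h1 h2 _ _ e1.1 e2.1
  · intro m p h a
    obtain ⟨c, h1, h2, h3, h4⟩ := B_ext h a.1
    refine ⟨⟨sw c a.1, sw_valid c N a.1 a.2⟩, c, h1, h2, ?_⟩
    rintro q (rfl | hq)
    · exact ⟨h3, rfl⟩
    · exact h4 q hq
  · intro m p h b
    obtain ⟨c, h1, h2, h3, h4⟩ := B_ext h b.1
    refine ⟨⟨sw c b.1, sw_valid c N b.1 b.2⟩, c, h1, h2, ?_⟩
    rintro q (rfl | hq)
    · exact ⟨(far_sw _ _ _ _).2 h3, (sw_sw c b.1).symm⟩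
    · exact h4 q hq
  · exact ⟨3 ^ (qr φ + 1), le_rfl, by omega, by simp⟩

end Pool.Agent.Q203.DP
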