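import Pool.Agent.Q203.DP.EF

set_option autoImplicit false

/-!
# Two families of finite posets: one of down-posets, one of other posets
-/

namespace Pool.Agent.Q203.DP

/-- The raw elements: a least element, a special maximal element, atoms on two tracks, and elements
of height two on two tracks. -/
inductive V : Type
  | bot : V
  | top : V
  | atm (b : Bool) (i : ℕ) : V
  | up (b : Bool) (i : ℕ) : V
  deriving DecidableEq

/-- The elements of the poset with parameter `N`. -/
def Valid (N : ℕ) : V → Prop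
  | .bot => True
  | .top => True
  | .atm _ i => i ≤ N + 2
  | .up _ i => i ≤ N

/-- The order: `up b j` covers the three atoms `atm b j`, `atm b (j + 1)`, `atm b (j + 2)`, and `top`
covers `up false 0` and the last atom on the track `t`. -/
def Le (t : Bool) (N : ℕ) : V → V → Prop
  | .bot, _ => True
  | .atm b i, .atm b' i' => b = b' ∧ i = i'
  | .atm b i, .up b' j => b = b' ∧ j ≤ i ∧ i ≤ j + 2
  | .atm b i, .top => (b = false ∧ i ≤ 2) ∨ (b = t ∧ i = N + 2)
  | .atm _ _, .bot => False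
  | .up b j, .up b' j' => b = b' ∧ j = j'
  | .up b j, .top => b = false ∧ j = 0
  | .up _ _, .bot => False
  | .up _ _, .atm _ _ => False
  | .top, .top => True
  | .top, .bot => False
  | .top, .atm _ _ => False
  | .top, .up _ _ => False

theorem le_refl' (t : Bool) (N : ℕ) (x : V) : Le t N x x := by
  cases x <;> simp [Le]

theorem le_trans' (t : Bool) (N : ℕ) (x y z : V) (h1 : Le t N x y) (h2 : Le t N y z) :
    Le t N x z := by
  cases x <;> cases y <;> cases z <;> simp only [Le] at h1 h2 ⊢ <;>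
    first
    | trivial
    | (obtain ⟨rfl, rfl⟩ := h1; exact h2)
    | (obtain ⟨rfl, rfl⟩ := h2; exact h1)
    | (obtain ⟨rfl, h3, h4⟩ := h1; obtain ⟨rfl, rfl⟩ := h2; left; exact ⟨rfl, by omega⟩)

theorem le_antisymm' (t : Bool) (N : ℕ) (x y : V) (h1 : Le t N x y) (h2 : Le t N y x) :
    x = y := by
  cases x <;> cases y <;> simp only [Le] at h1 h2 <;>
    first
    | rfl
    | (obtain ⟨rfl, rfl⟩ := h1; rfl)

/-- The poset with parameters `t`, `N`. -/
def P (_t : Bool) (N : ℕ) : Type := {x : V // Valid N x}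

instance (t : Bool) (N : ℕ) : PartialOrder (P t N) where
  le x y := Le t N x.1 y.1
  le_refl x := le_refl' t N x.1
  le_trans x y z := le_trans' t N x.1 y.1 z.1
  le_antisymm x y h1 h2 := Subtype.ext (le_antisymm' t N x.1 y.1 h1 h2)

theorem le_def {t : Bool} {N : ℕ} (x y : P t N) : x ≤ y ↔ Le t N x.1 y.1 := Iff.rfl

instance (t : Bool) (N : ℕ) : Finite (P t N) := by
  let f : V → Fin 4 × Bool × ℕ := fun x => match x with
    | .bot => (0, false, 0)
    | .top => (1, false, 0)
    | .atm b i => (2, b, i)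
    | .up b i => (3, b, i)
  have hf : ∀ x, Valid N x → (f x).2.2 < N + 3 := by
    intro x hx
    cases x <;> simp only [Valid, f] at hx ⊢ <;> omega
  let g : P t N → Fin 4 × Bool × Fin (N + 3) := fun x =>
    ((f x.1).1, (f x.1).2.1, ⟨(f x.1).2.2, hf x.1 x.2⟩)
  refine Finite.of_injective g ?_
  rintro ⟨x, hx⟩ ⟨y, hy⟩ h
  apply Subtype.ext
  simp only [g, Prod.mk.injEq, Fin.mk.injEq] at h
  cases x <;> cases y <;> simp_all [f]

/-- A poset is a down-poset if it comes from an action of a semilattice with identity. -/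
def IsDownPoset (C : Type) [PartialOrder C] : Prop :=
  ∃ (S : Type) (mul : S → S → S) (one : S) (act : C → S → C),
    (∀ a b c, mul (mul a b) c = mul a (mul b c)) ∧ (∀ a b, mul a b = mul b a) ∧
    (∀ a, mul a a = a) ∧ (∀ a, mul one a = a) ∧
    (∀ c s t, act c (mul s t) = act (act c s) t) ∧ (∀ c, act c one = c) ∧
    ∀ c d : C, c ≤ d ↔ ∃ s, act d s = c

/-- Down-functions. -/
def IsDownFun {C : Type} [PartialOrder C] (f : C → C) : Prop :=
  (∀ c, f c ≤ c) ∧ (∀ c d, c ≤ d → f c ≤ f d) ∧ ∀ c d, c ≤ f d → f c = c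

theorem IsDownFun.comp {C : Type} [PartialOrder C] {f g : C → C} (hf : IsDownFun f)
    (hg : IsDownFun g) : IsDownFun (f ∘ g) := by
  refine ⟨fun c => (hf.1 _).trans (hg.1 c), fun c d h => hf.2.1 _ _ (hg.2.1 _ _ h), ?_⟩
  intro c d h
  have h1 : f c = c := hf.2.2 c _ h
  have h2 : g c = c := hg.2.2 c d (le_trans h (hf.1 _))
  show f (g c) = c
  rw [h2, h1]

theorem IsDownFun.comm {C : Type} [PartialOrder C] {f g : C → C} (hf : IsDownFun f)
    (hg : IsDownFun g) (x : C) : f (g x) = g (f x) := by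
  have key : ∀ {f g : C → C}, IsDownFun f → IsDownFun g → f (g x) ≤ g (f x) := by
    intro f g hf hg
    have h1 : g (f (g x)) = f (g x) := hg.2.2 _ x (hf.1 _)
    rw [← h1]
    exact hg.2.1 _ _ (hf.2.1 _ _ (hg.1 x))
  exact le_antisymm (key hf hg) (key hg hf)

theorem IsDownFun.idem {C : Type} [PartialOrder C] {f : C → C} (hf : IsDownFun f) (x : C) :
    f (f x) = f x := hf.2.2 _ x le_rfl

theorem isDownPoset_iff {C : Type} [PartialOrder C] :
    IsDownPoset C ↔ ∀ c d : C, c ≤ d → ∃ f : C → C, IsDownFun f ∧ f d = c := by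
  constructor
  · rintro ⟨S, mul, one, act, h1, h2, h3, h4, h5, h6, h7⟩ c d hcd
    obtain ⟨s, rfl⟩ := (h7 c d).1 hcd
    refine ⟨fun x => act x s, ⟨fun x => (h7 _ _).2 ⟨s, rfl⟩, ?_, ?_⟩, rfl⟩
    · intro x y hxy
      obtain ⟨t, rfl⟩ := (h7 x y).1 hxy
      refine (h7 _ _).2 ⟨t, ?_⟩
      rw [← h5, h2, h5]
    · intro x y hxy
      obtain ⟨t, rfl⟩ := (h7 _ _).1 hxy
      show act (act (act y s) t) s = act (act y s) t
      rw [← h5, ← h5, ← h5, h2 t s, ← h1, h3]
  · intro h
    refine ⟨{f : C → C // IsDownFun f}, fun f g => ⟨g.1 ∘ f.1, g.2.comp f.2⟩,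
      ⟨id, ⟨fun c => le_rfl, fun _ _ h => h, fun _ _ _ => rfl⟩⟩, fun c f => f.1 c,
      fun _ _ _ => rfl, fun f g => Subtype.ext (funext fun x => g.2.comm f.2 x),
      fun f => Subtype.ext (funext fun x => f.2.idem x), fun _ => rfl, fun _ _ _ => rfl,
      fun _ => rfl, fun c d => ⟨fun hcd => ?_, ?_⟩⟩
    · obtain ⟨f, hf, hfd⟩ := h c d hcd
      exact ⟨⟨f, hf⟩, hfd⟩
    · rintro ⟨f, rfl⟩
      exact f.2.1 d

/-- The bad posets: the last atom on the first track is forced. -/
theorem bad (N : ℕ) (hN : 1 ≤ N) : ¬ IsDownPoset (P false N) := by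
  rw [isDownPoset_iff]
  intro h
  obtain ⟨f, ⟨h1, h2, h3⟩, hf⟩ := h ⟨.up false 0, by simp [Valid]⟩ ⟨.top, trivial⟩
    (by simp [le_def, Le])
  have key : ∀ i (hi : i ≤ N), f ⟨.up false i, hi⟩ = ⟨.up false i, hi⟩ := by
    intro i
    induction i with
    | zero =>
      intro hi
      exact h3 _ ⟨.top, trivial⟩ (by rw [hf])
    | succ i ih =>
      intro hi
      have hi' : i ≤ N := by omega
      have ha : ∀ k (hk : k ≤ N + 2), i ≤ k → k ≤ i + 2 →
          f ⟨.atm false k, hk⟩ = ⟨.atm false k, hk⟩ := by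
        intro k hk hk1 hk2
        refine h3 _ ⟨.up false i, hi'⟩ ?_
        rw [ih hi']
        exact ⟨rfl, hk1, hk2⟩
      have e1 := h2 ⟨.atm false (i + 1), by show i + 1 ≤ N + 2; omega⟩
        ⟨.up false (i + 1), hi⟩ ⟨rfl, by omega, by omega⟩
      have e2 := h2 ⟨.atm false (i + 2), by show i + 2 ≤ N + 2; omega⟩
        ⟨.up false (i + 1), hi⟩ ⟨rfl, by omega, by omega⟩
      rw [ha _ _ (by omega) (by omega)] at e1 e2
      have e3 := h1 ⟨.up false (i + 1), hi⟩
      generalize f ⟨.up false (i + 1), hi⟩ = w at e1 e2 e3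
      obtain ⟨w, hw⟩ := w
      apply Subtype.ext
      simp only [le_def] at e1 e2 e3 ⊢
      cases w with
      | bot => simp [Le] at e1
      | top => simp [Le] at e3
      | atm b k =>
        simp only [Le] at e1 e2
        omega
      | up b k =>
        simp only [Le] at e3
        rw [e3.1, e3.2]
  have e4 : f ⟨.atm false (N + 2), le_refl _⟩ = ⟨.atm false (N + 2), le_refl _⟩ := by
    refine h3 _ ⟨.up false N, le_refl _⟩ ?_
    rw [key N le_rfl]
    exact ⟨rfl, by omega, by omega⟩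
  have e5 := h2 ⟨.atm false (N + 2), le_refl _⟩ ⟨.top, trivial⟩ (Or.inr ⟨rfl, rfl⟩)
  rw [e4, hf] at e5
  simp only [le_def, Le] at e5
  omega

end Pool.Agent.Q203.DP
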